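import Pool.Agent.P.MP_d1c5a4_lc.NL.Main

/-! The W-hierarchy is strict when fpt-reductions are replaced by circuits of size
`f(k) (n + 1) ^ c`, of any depth, with at most `log (n + 1) / (k + 1) ^ 5 + O_k(1)` NOT gates. -/

namespace Pool.Agent.Results.MP_d1c5a4_lc.StrictNeg

open Pool.Agent.P.MP_d1c5a4_lc.NL

theorem result (R : ℕ → ℕ → ℕ)
    (hR : ∀ k, ∃ A, ∀ n, R k n ≤ A + Nat.log 2 (n + 1) / (k + 1) ^ 5) (t : ℕ) (ht : 1 ≤ t) :
    WN R t ⊂ WN R (t + 1) := by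
  obtain ⟨j, rfl⟩ := Nat.exists_eq_add_of_le' ht
  obtain ⟨L, h1, h2⟩ := sep hR j
  exact ⟨wn_mono R _, fun h => h2 (h h1)⟩

end Pool.Agent.Results.MP_d1c5a4_lc.StrictNeg
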